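import Mathlib

/-! Geometry for alternating paths: visible vertices of a finite point set. -/

namespace Pool.Agent.AltPath

/-- The scalar product in the plane. -/
def dt (a x : ℝ × ℝ) : ℝ := a.1 * x.1 + a.2 * x.2

/-- The determinant of two vectors of the plane. -/
def cr (x y : ℝ × ℝ) : ℝ := x.1 * y.2 - x.2 * y.1

/-- No three points of the finite set are collinear (determinant form). -/
def GP (S : Finset (ℝ × ℝ)) : Prop :=
  ∀ p ∈ S, ∀ q ∈ S, ∀ r ∈ S, p ≠ q → p ≠ r → q ≠ r → cr (q - p) (r - p) ≠ 0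

/-- The point g of Q is visible from p through a supporting line of Q at g. -/
def Vis (p : ℝ × ℝ) (Q : Finset (ℝ × ℝ)) (g : ℝ × ℝ) : Prop :=
  g ∈ Q ∧ ∃ a : ℝ × ℝ, (∀ q ∈ Q, q ≠ g → 0 < dt a (q - g)) ∧ dt a (p - g) < 0

/-- A line through p has Q strictly on one side. -/
def Sep (p : ℝ × ℝ) (Q : Finset (ℝ × ℝ)) : Prop :=
  ∃ a : ℝ × ℝ, ∀ q ∈ Q, 0 < dt a (q - p)

theorem dt_sub (a x y : ℝ × ℝ) : dt a (x - y) = dt a x - dt a y := by
  simp only [dt, Prod.fst_sub, Prod.snd_sub]; ring

theorem dt_add_left (a b x : ℝ × ℝ) (t : ℝ) : dt (a + t • b) x = dt a x + t * dt b x := by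
  simp only [dt, Prod.fst_add, Prod.snd_add, Prod.smul_fst, Prod.smul_snd, smul_eq_mul]; ring

theorem dt_self_pos {x : ℝ × ℝ} (hx : x ≠ 0) : 0 < dt x x := by
  have h : x.1 ≠ 0 ∨ x.2 ≠ 0 := by
    by_contra hcon
    push Not at hcon
    exact hx (Prod.ext hcon.1 hcon.2)
  simp only [dt]
  rcases h with h | h
  · have := mul_self_pos.mpr h
    nlinarith [mul_self_nonneg x.2]
  · have := mul_self_pos.mpr h
    nlinarith [mul_self_nonneg x.1]

/-- A small multiple of a second functional does not disturb finitely many strict inequalities. -/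
theorem small (F : Finset (ℝ × ℝ)) (b c : ℝ × ℝ) (h : ∀ v ∈ F, 0 < dt b v) :
    ∃ e : ℝ, 0 < e ∧ ∀ v ∈ F, e * |dt c v| < dt b v := by
  classical
  induction F using Finset.induction_on with
  | empty => exact ⟨1, one_pos, fun v hv => absurd hv (Finset.notMem_empty v)⟩
  | insert v F hv ih =>
    obtain ⟨e, he, hF⟩ := ih (fun w hw => h w (Finset.mem_insert_of_mem hw))
    have hbv : 0 < dt b v := h v (Finset.mem_insert_self v F)
    have hc : 0 < |dt c v| + 1 := by positivity
    refine ⟨min e (dt b v / (|dt c v| + 1)), lt_min he (div_pos hbv hc), ?_⟩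
    intro w hw
    rcases Finset.mem_insert.mp hw with rfl | hw
    · calc min e (dt b w / (|dt c w| + 1)) * |dt c w|
          ≤ dt b w / (|dt c w| + 1) * |dt c w| :=
            mul_le_mul_of_nonneg_right (min_le_right _ _) (abs_nonneg _)
        _ < dt b w / (|dt c w| + 1) * (|dt c w| + 1) :=
            mul_lt_mul_of_pos_left (lt_add_one _) (div_pos hbv hc)
        _ = dt b w := div_mul_cancel₀ _ hc.ne'
    · calc min e (dt b v / (|dt c v| + 1)) * |dt c w|
          ≤ e * |dt c w| := mul_le_mul_of_nonneg_right (min_le_left _ _) (abs_nonneg _)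
        _ < dt b w := hF w hw

/-- The edge configuration: the line through g and u has p on one side and the rest of Q on the
other side. -/
def Edge (p : ℝ × ℝ) (Q : Finset (ℝ × ℝ)) (g u : ℝ × ℝ) : Prop :=
  g ∈ Q ∧ u ∈ Q ∧ u ≠ g ∧ ∃ b : ℝ × ℝ, dt b (u - g) = 0 ∧
    (∀ q ∈ Q, q ≠ g → q ≠ u → 0 < dt b (q - g)) ∧ dt b (p - g) < 0

/-- From a visible vertex one finds an edge at it which is visible. -/
theorem exists_edge {p g : ℝ × ℝ} {Q : Finset (ℝ × ℝ)} (hp : p ∉ Q) (hgp : GP (insert p Q))
    (hv : Vis p Q g) (hcard : 2 ≤ Q.card) : ∃ u, Edge p Q g u := by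
  classical
  obtain ⟨hg, a, ha, hap⟩ := hv
  have hne : (Q.erase g).Nonempty := by
    rw [← Finset.card_pos, Finset.card_erase_of_mem hg]; omega
  obtain ⟨u, hu, hu'⟩ := Finset.exists_max_image (Q.erase g)
    (fun q => cr a (q - g) / dt a (q - g)) hne
  obtain ⟨v, hv, hv'⟩ := Finset.exists_min_image (Q.erase g)
    (fun q => cr a (q - g) / dt a (q - g)) hne
  have huQ := (Finset.mem_erase.mp hu).2
  have hug := (Finset.mem_erase.mp hu).1
  have hvQ := (Finset.mem_erase.mp hv).2
  have hvg := (Finset.mem_erase.mp hv).1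
  have hAu := ha u huQ hug
  have hAv := ha v hvQ hvg
  have ident : ∀ x y : ℝ × ℝ, dt a x * cr a y - cr a x * dt a y = dt a a * cr x y := by
    intro x y; simp only [dt, cr]; ring
  have ha0 : a ≠ 0 := by
    rintro rfl
    simp [dt] at hap
  have haa := dt_self_pos ha0
  have hgne : g ≠ p := fun h => hp (h ▸ hg)
  have hune : u ≠ p := fun h => hp (h ▸ huQ)
  have hvne : v ≠ p := fun h => hp (h ▸ hvQ)
  have memg : g ∈ insert p Q := Finset.mem_insert_of_mem hg
  have memu : u ∈ insert p Q := Finset.mem_insert_of_mem huQ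
  have memv : v ∈ insert p Q := Finset.mem_insert_of_mem hvQ
  have memp : p ∈ insert p Q := Finset.mem_insert_self p Q
  -- the maximal ratio
  have hU : ∀ q ∈ Q, q ≠ g → q ≠ u → cr (u - g) (q - g) < 0 := by
    intro q hq hqg hqu
    have hA := ha q hq hqg
    have h1 := hu' q (Finset.mem_erase.mpr ⟨hqg, hq⟩)
    rw [div_le_div_iff₀ hA hAu] at h1
    have h2 := ident (u - g) (q - g)
    have h3 : dt a a * cr (u - g) (q - g) ≤ 0 := by rw [← h2]; nlinarith
    have h4 : cr (u - g) (q - g) ≤ 0 := by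
      by_contra hcon
      push Not at hcon
      nlinarith [mul_pos haa hcon]
    exact lt_of_le_of_ne h4
      (hgp g memg u memu q (Finset.mem_insert_of_mem hq) hug.symm hqg.symm hqu.symm)
  have hV : ∀ q ∈ Q, q ≠ g → q ≠ v → 0 < cr (v - g) (q - g) := by
    intro q hq hqg hqv
    have hA := ha q hq hqg
    have h1 := hv' q (Finset.mem_erase.mpr ⟨hqg, hq⟩)
    rw [div_le_div_iff₀ hAv hA] at h1
    have h2 := ident (v - g) (q - g)
    have h3 : 0 ≤ dt a a * cr (v - g) (q - g) := by rw [← h2]; nlinarith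
    have h4 : 0 ≤ cr (v - g) (q - g) := by
      by_contra hcon
      push Not at hcon
      nlinarith [mul_neg_of_pos_of_neg haa hcon]
    exact lt_of_le_of_ne h4
      (hgp g memg v memv q (Finset.mem_insert_of_mem hq) hvg.symm hqg.symm hqv.symm).symm
  by_cases h1 : 0 < cr (u - g) (p - g)
  · refine ⟨u, hg, huQ, hug, ((u - g).2, -(u - g).1), ?_, ?_, ?_⟩
    · simp only [dt]; ring
    · intro q hq hqg hqu
      have := hU q hq hqg hqu
      simp only [dt, cr] at this ⊢
      linarith
    · simp only [dt, cr] at h1 ⊢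
      linarith
  · by_cases h2 : cr (v - g) (p - g) < 0
    · refine ⟨v, hg, hvQ, hvg, (-(v - g).2, (v - g).1), ?_, ?_, ?_⟩
      · simp only [dt]; ring
      · intro q hq hqg hqv
        have := hV q hq hqg hqv
        simp only [dt, cr] at this ⊢
        linarith
      · simp only [dt, cr] at h2 ⊢
        linarith
    · exfalso
      push Not at h1 h2
      have hu1 : cr (u - g) (p - g) < 0 :=
        lt_of_le_of_ne h1 (hgp g memg u memu p memp hug.symm hgne hune)
      have hv1 : 0 < cr (v - g) (p - g) :=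
        lt_of_le_of_ne h2 (hgp g memg v memv p memp hvg.symm hgne hvne).symm
      -- u and v differ
      have huv : u ≠ v := by
        rintro rfl
        linarith
      have h5 := hU v hvQ hvg huv.symm
      have i1 := ident (u - g) (p - g)
      have i2 := ident (v - g) (p - g)
      have i3 := ident (u - g) (v - g)
      -- A u T p < T u A p, T v A p < A v T p, A u T v < T u A v
      have j1 : dt a (u - g) * cr a (p - g) < cr a (u - g) * dt a (p - g) := by
        nlinarith [mul_neg_of_pos_of_neg haa hu1]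
      have j2 : cr a (v - g) * dt a (p - g) < dt a (v - g) * cr a (p - g) := by
        nlinarith [mul_pos haa hv1]
      have j3 : dt a (u - g) * cr a (v - g) < cr a (u - g) * dt a (v - g) := by
        nlinarith [mul_neg_of_pos_of_neg haa h5]
      have k1 := mul_lt_mul_of_pos_left j1 hAv
      have k2 := mul_lt_mul_of_pos_left j2 hAu
      have k3 := mul_lt_mul_of_neg_right j3 hap
      nlinarith [k1, k2, k3]

theorem Edge.symm' {p g u : ℝ × ℝ} {Q : Finset (ℝ × ℝ)} (h : Edge p Q g u) : Edge p Q u g := by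
  obtain ⟨hg, hu, hug, b, hb, hb1, hb2⟩ := h
  have e : ∀ q : ℝ × ℝ, dt b (q - u) = dt b (q - g) := by
    intro q
    have h0 : dt b u - dt b g = 0 := by rw [← dt_sub]; exact hb
    rw [dt_sub, dt_sub]; linarith
  refine ⟨hu, hg, hug.symm, b, ?_, ?_, ?_⟩
  · rw [dt_sub]
    have h0 : dt b u - dt b g = 0 := by rw [← dt_sub]; exact hb
    linarith
  · intro q hq hqu hqg
    rw [e]; exact hb1 q hq hqg hqu
  · rw [e]; exact hb2

/-- An end of a visible edge is visible. -/
theorem Edge.vis {p g u : ℝ × ℝ} {Q : Finset (ℝ × ℝ)} (h : Edge p Q g u) : Vis p Q u := by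
  classical
  obtain ⟨hu, hg, hgu, b, hb, hb1, hb2⟩ := h.symm'
  obtain ⟨e, he, hsm⟩ := small (insert (u - p) (((Q.erase u).erase g).image (fun q => q - u))) b (g - u)
    (by
      intro w hw
      rcases Finset.mem_insert.mp hw with rfl | hw
      · rw [dt_sub] at hb2 ⊢; linarith
      · obtain ⟨q, hq, rfl⟩ := Finset.mem_image.mp hw
        have h1 := Finset.mem_erase.mp hq
        have h2 := Finset.mem_erase.mp h1.2
        exact hb1 q h2.2 h2.1 h1.1)
  refine ⟨hu, b + e • (g - u), ?_, ?_⟩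
  · intro q hq hqu
    rw [dt_add_left]
    by_cases hqg : q = g
    · subst hqg
      rw [hb]
      have := dt_self_pos (sub_ne_zero.mpr hgu)
      have := mul_pos he this
      linarith
    · have h1 := hsm (q - u) (Finset.mem_insert_of_mem (Finset.mem_image.mpr
        ⟨q, Finset.mem_erase.mpr ⟨hqg, Finset.mem_erase.mpr ⟨hqu, hq⟩⟩, rfl⟩))
      have h2 : -(e * |dt (g - u) (q - u)|) ≤ e * dt (g - u) (q - u) := by
        nlinarith [neg_abs_le (dt (g - u) (q - u))]
      linarith
  · rw [dt_add_left]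
    have h1 := hsm (u - p) (Finset.mem_insert_self _ _)
    have h2 : dt (g - u) (p - u) = -dt (g - u) (u - p) := by
      rw [dt_sub, dt_sub]; ring
    have h3 : dt b (p - u) = -dt b (u - p) := by
      rw [dt_sub, dt_sub]; ring
    rw [h2, h3]
    have h4 : -(e * |dt (g - u) (u - p)|) ≤ e * dt (g - u) (u - p) := by
      nlinarith [neg_abs_le (dt (g - u) (u - p))]
    nlinarith

/-- From one end of a visible edge the other end is visible after removing the first one. -/
theorem Edge.vis_end {p g u : ℝ × ℝ} {Q : Finset (ℝ × ℝ)} (h : Edge p Q g u) :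
    Vis g (Q.erase g) u := by
  classical
  obtain ⟨hu, hg, hgu, b, hb, hb1, hb2⟩ := h.symm'
  obtain ⟨e, he, hsm⟩ := small (((Q.erase u).erase g).image (fun q => q - u)) b (g - u)
    (by
      intro w hw
      obtain ⟨q, hq, rfl⟩ := Finset.mem_image.mp hw
      have h1 := Finset.mem_erase.mp hq
      have h2 := Finset.mem_erase.mp h1.2
      exact hb1 q h2.2 h2.1 h1.1)
  refine ⟨Finset.mem_erase.mpr ⟨hgu.symm, hu⟩, b + (-e) • (g - u), ?_, ?_⟩
  · intro q hq hqu
    rw [dt_add_left]
    have hq' := Finset.mem_erase.mp hq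
    have h1 := hsm (q - u) (Finset.mem_image.mpr
      ⟨q, Finset.mem_erase.mpr ⟨hq'.1, Finset.mem_erase.mpr ⟨hqu, hq'.2⟩⟩, rfl⟩)
    have h2 : e * dt (g - u) (q - u) ≤ e * |dt (g - u) (q - u)| := by
      nlinarith [le_abs_self (dt (g - u) (q - u))]
    linarith
  · rw [dt_add_left, hb]
    have := dt_self_pos (sub_ne_zero.mpr hgu)
    have := mul_pos he this
    linarith

/-- After removing one end of a visible edge the other end is visible from the same point. -/
theorem Edge.vis_erase {p g u : ℝ × ℝ} {Q : Finset (ℝ × ℝ)} (h : Edge p Q g u) :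
    Vis p (Q.erase g) u := by
  obtain ⟨hu, hg, hgu, b, hb, hb1, hb2⟩ := h.symm'
  refine ⟨Finset.mem_erase.mpr ⟨hgu.symm, hu⟩, b, ?_, hb2⟩
  intro q hq hqu
  have hq' := Finset.mem_erase.mp hq
  exact hb1 q hq'.2 hqu hq'.1

/-- A visible vertex is separated from the others. -/
theorem Vis.sep {p g : ℝ × ℝ} {Q : Finset (ℝ × ℝ)} (h : Vis p Q g) : Sep g (Q.erase g) := by
  obtain ⟨hg, a, ha, hap⟩ := h
  exact ⟨a, fun q hq => ha q (Finset.mem_erase.mp hq).2 (Finset.mem_erase.mp hq).1⟩

/-- A point separated from a nonempty set sees a vertex of it. -/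
theorem Sep.exists_vis {p : ℝ × ℝ} {Q : Finset (ℝ × ℝ)} (h : Sep p Q) (hne : Q.Nonempty) :
    ∃ g, Vis p Q g := by
  classical
  obtain ⟨a, ha⟩ := h
  have ha0 : a ≠ 0 := by
    rintro rfl
    obtain ⟨q, hq⟩ := hne
    have := ha q hq
    simp [dt] at this
  obtain ⟨g, hg, hmin⟩ := Finset.exists_min_image Q
    (fun q => toLex (dt a q, dt (-a.2, a.1) q)) hne
  obtain ⟨e, he, hsm⟩ := small (insert (g - p) ((Q.filter (fun q => 0 < dt a (q - g))).image
    (fun q => q - g))) a (-a.2, a.1)
    (by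
      intro w hw
      rcases Finset.mem_insert.mp hw with rfl | hw
      · exact ha g hg
      · obtain ⟨q, hq, rfl⟩ := Finset.mem_image.mp hw
        exact (Finset.mem_filter.mp hq).2)
  refine ⟨g, hg, a + e • (-a.2, a.1), ?_, ?_⟩
  · intro q hq hqg
    rw [dt_add_left]
    have h1 := hmin q hq
    rw [Prod.Lex.le_iff] at h1
    simp only [ofLex_toLex] at h1
    rcases h1 with h1 | ⟨h1, h1'⟩
    · have h2 : 0 < dt a (q - g) := by rw [dt_sub]; linarith
      have h3 := hsm (q - g) (Finset.mem_insert_of_mem (Finset.mem_image.mpr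
        ⟨q, Finset.mem_filter.mpr ⟨hq, h2⟩, rfl⟩))
      have h4 : -(e * |dt (-a.2, a.1) (q - g)|) ≤ e * dt (-a.2, a.1) (q - g) := by
        nlinarith [neg_abs_le (dt (-a.2, a.1) (q - g))]
      linarith
    · have h2 : dt a (q - g) = 0 := by rw [dt_sub]; linarith
      have h3 : 0 ≤ dt (-a.2, a.1) (q - g) := by rw [dt_sub]; linarith
      have h4 : dt (-a.2, a.1) (q - g) ≠ 0 := by
        intro h5
        apply hqg
        have haa := dt_self_pos ha0
        have e1 : dt a a * (q - g).1 = 0 := by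
          have : dt a a * (q - g).1 = a.1 * dt a (q - g) - a.2 * dt (-a.2, a.1) (q - g) := by
            simp only [dt]; ring
          rw [this, h2, h5]; ring
        have e2 : dt a a * (q - g).2 = 0 := by
          have : dt a a * (q - g).2 = a.2 * dt a (q - g) + a.1 * dt (-a.2, a.1) (q - g) := by
            simp only [dt]; ring
          rw [this, h2, h5]; ring
        have f1 := (mul_eq_zero.mp e1).resolve_left haa.ne'
        have f2 := (mul_eq_zero.mp e2).resolve_left haa.ne'
        exact sub_eq_zero.mp (Prod.ext f1 f2)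
      have h5 := mul_pos he (lt_of_le_of_ne h3 h4.symm)
      linarith
  · rw [dt_add_left]
    have h1 := hsm (g - p) (Finset.mem_insert_self _ _)
    have h2 : dt (-a.2, a.1) (p - g) = -dt (-a.2, a.1) (g - p) := by
      rw [dt_sub, dt_sub]; ring
    have h3 : dt a (p - g) = -dt a (g - p) := by
      rw [dt_sub, dt_sub]; ring
    rw [h2, h3]
    have h4 : -(e * |dt (-a.2, a.1) (g - p)|) ≤ e * dt (-a.2, a.1) (g - p) := by
      nlinarith [neg_abs_le (dt (-a.2, a.1) (g - p))]
    nlinarith

theorem GP.mono {S T : Finset (ℝ × ℝ)} (h : GP T) (hST : S ⊆ T) : GP S :=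
  fun p hp q hq r hr => h p (hST hp) q (hST hq) r (hST hr)

/-- A nonempty finite set has a point separated from the others. -/
theorem exists_sep (P : Finset (ℝ × ℝ)) (hne : P.Nonempty) : ∃ p ∈ P, Sep p (P.erase p) := by
  classical
  obtain ⟨g, hg, hmin⟩ := Finset.exists_min_image P (fun q => toLex (q.1, q.2)) hne
  obtain ⟨e, he, hsm⟩ := small ((P.filter (fun q => 0 < dt (1, 0) (q - g))).image
    (fun q => q - g)) (1, 0) (0, 1)
    (by
      intro w hw
      obtain ⟨q, hq, rfl⟩ := Finset.mem_image.mp hw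
      exact (Finset.mem_filter.mp hq).2)
  refine ⟨g, hg, (1, 0) + e • (0, 1), ?_⟩
  intro q hq
  obtain ⟨hqg, hqP⟩ := Finset.mem_erase.mp hq
  rw [dt_add_left]
  have h1 := hmin q hqP
  rw [Prod.Lex.le_iff] at h1
  simp only [ofLex_toLex] at h1
  rcases h1 with h1 | ⟨h1, h1'⟩
  · have h2 : 0 < dt (1, 0) (q - g) := by
      simp only [dt, Prod.fst_sub, Prod.snd_sub]; linarith
    have h3 := hsm (q - g) (Finset.mem_image.mpr ⟨q, Finset.mem_filter.mpr ⟨hqP, h2⟩, rfl⟩)
    have h4 : -(e * |dt (0, 1) (q - g)|) ≤ e * dt (0, 1) (q - g) := by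
      nlinarith [neg_abs_le (dt (0, 1) (q - g))]
    linarith
  · have h2 : dt (1, 0) (q - g) = 0 := by
      simp only [dt, Prod.fst_sub, Prod.snd_sub]; linarith
    have h3 : 0 ≤ dt (0, 1) (q - g) := by
      simp only [dt, Prod.fst_sub, Prod.snd_sub]; linarith
    have h4 : dt (0, 1) (q - g) ≠ 0 := by
      intro h5
      apply hqg
      simp only [dt, Prod.fst_sub, Prod.snd_sub] at h2 h5
      exact Prod.ext (by linarith) (by linarith)
    have h5 := mul_pos he (lt_of_le_of_ne h3 h4.symm)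
    linarith

end Pool.Agent.AltPath
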