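import Pool.Agent.AltPath.Numeric

/-! From a good list to a simple alternating polygonal path. -/

namespace Pool.Agent.AltPath

/-- A non-self-crossing polygonal path with k distinct vertices in R and B whose consecutive
vertices alternate in colour. -/
def HasPath (R B : Finset (ℝ × ℝ)) (k : ℕ) : Prop :=
  ∃ v : ℕ → ℝ × ℝ,
    (∀ i, i < k → v i ∈ R ∪ B) ∧
    (∀ i j, i < k → j < k → v i = v j → i = j) ∧
    (∀ i, i + 1 < k → (v i ∈ R ↔ v (i + 1) ∈ B)) ∧
    (∀ i j, j + 1 < k → i + 1 < j →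
      Disjoint (segment ℝ (v i) (v (i + 1))) (segment ℝ (v j) (v (j + 1)))) ∧
    (∀ i, i + 2 < k →
      segment ℝ (v i) (v (i + 1)) ∩ segment ℝ (v (i + 1)) (v (i + 2)) = {v (i + 1)})

theorem Good.get (d : ℝ × ℝ) : ∀ (l : List (ℝ × ℝ)) (p : ℝ × ℝ), Good p l → ∀ i, i < l.length →
    ∃ a : ℝ × ℝ, dt a ((p :: l).getD i d - (p :: l).getD (i + 1) d) < 0 ∧
      ∀ j, i + 1 < j → j ≤ l.length →
        0 < dt a ((p :: l).getD j d - (p :: l).getD (i + 1) d)
  | [], _, _, i, hi => absurd hi (Nat.not_lt_zero i)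
  | q :: l, p, h, 0, _ => by
    obtain ⟨⟨a, ha, hr⟩, _⟩ := h
    refine ⟨a, by simpa using ha, ?_⟩
    intro j hj hjl
    obtain ⟨j', rfl⟩ : ∃ j', j = j' + 2 := ⟨j - 2, by omega⟩
    have hj' : j' < l.length := by simp only [List.length_cons] at hjl; omega
    have e1 : (p :: q :: l).getD (j' + 2) d = l[j'] := by
      rw [List.getD_cons_succ, List.getD_cons_succ, List.getD_eq_getElem _ _ hj']
    have e2 : (p :: q :: l).getD (0 + 1) d = q := by simp
    rw [e1, e2]
    exact hr _ (List.getElem_mem hj')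
  | q :: l, p, h, i + 1, hi => by
    obtain ⟨a, ha, hr⟩ := Good.get d l q h.2 i (by simp only [List.length_cons] at hi; omega)
    refine ⟨a, ?_, ?_⟩
    · rw [List.getD_cons_succ, List.getD_cons_succ]; exact ha
    · intro j hj hjl
      obtain ⟨j', rfl⟩ : ∃ j', j = j' + 1 := ⟨j - 1, by omega⟩
      rw [List.getD_cons_succ, List.getD_cons_succ]
      exact hr j' (by omega) (by simp only [List.length_cons] at hjl; omega)

theorem Alt.get (d : ℝ × ℝ) (S : Finset (ℝ × ℝ)) : ∀ (l : List (ℝ × ℝ)) (p : ℝ × ℝ) (c : Bool),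
    Alt S c l → (p ∈ S ↔ c = true) → ∀ i, i < l.length →
    ((p :: l).getD i d ∈ S ↔ (p :: l).getD (i + 1) d ∉ S)
  | [], _, _, _, _, i, hi => absurd hi (Nat.not_lt_zero i)
  | q :: l, p, c, h, hp, 0, _ => by
    have h1 := h.1
    have e1 : (p :: q :: l).getD 0 d = p := by simp
    have e2 : (p :: q :: l).getD (0 + 1) d = q := by simp
    rw [e1, e2, hp, h1]
    cases c <;> simp
  | q :: l, p, c, h, hp, i + 1, hi => by
    rw [List.getD_cons_succ, List.getD_cons_succ]
    refine Alt.get d S l q (!c) h.2 ?_ i (by simp only [List.length_cons] at hi; omega)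
    rw [h.1]; cases c <;> simp

theorem dt_segment {a x y z g : ℝ × ℝ} (hz : z ∈ segment ℝ x y) :
    ∃ s t : ℝ, 0 ≤ s ∧ 0 ≤ t ∧ s + t = 1 ∧ z = s • x + t • y ∧
      dt a (z - g) = s * dt a (x - g) + t * dt a (y - g) := by
  obtain ⟨s, t, hs, ht, hst, rfl⟩ := hz
  refine ⟨s, t, hs, ht, hst, rfl, ?_⟩
  simp only [dt, Prod.fst_sub, Prod.snd_sub, Prod.fst_add, Prod.snd_add, Prod.smul_fst,
    Prod.smul_snd, smul_eq_mul]
  have : t = 1 - s := by linarith
  subst this
  ring

theorem hasPath_of_list {P R : Finset (ℝ × ℝ)} {p : ℝ × ℝ} {l : List (ℝ × ℝ)} {c : Bool}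
    (hp : p ∈ P) (hR : R ⊆ P) (hl : ∀ q ∈ l, q ∈ P) (hnd : (p :: l).Nodup) (hgood : Good p l)
    (halt : Alt R c l) (hc : p ∈ R ↔ c = true) : HasPath R (P \ R) (l.length + 1) := by
  classical
  have hmem : ∀ i, i < l.length + 1 → (p :: l).getD i p ∈ P := by
    intro i hi
    rw [List.getD_eq_getElem _ _ (by simpa using hi)]
    rcases List.mem_cons.mp (List.getElem_mem (l := p :: l) (n := i) (by simpa using hi)) with h | h
    · rw [h]; exact hp
    · exact hl _ h
  refine ⟨fun i => (p :: l).getD i p, ?_, ?_, ?_, ?_, ?_⟩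
  · intro i hi
    rw [Finset.union_sdiff_of_subset hR]
    exact hmem i hi
  · intro i j hi hj hij
    simp only at hij
    rw [List.getD_eq_getElem _ _ (by simpa using hi), List.getD_eq_getElem _ _ (by simpa using hj)]
      at hij
    exact (List.Nodup.getElem_inj_iff hnd).mp hij
  · intro i hi
    have h1 := Alt.get p R l p c halt hc i (by omega)
    rw [h1, Finset.mem_sdiff]
    exact ⟨fun h => ⟨hmem (i + 1) (by omega), h⟩, fun h => h.2⟩
  · intro i j hj hij
    obtain ⟨a, ha, hr⟩ := hgood.get p l p i (by omega)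
    rw [Set.disjoint_left]
    intro z hz1 hz2
    obtain ⟨s, t, hs, ht, hst, -, e1⟩ := dt_segment (a := a) (g := (p :: l).getD (i + 1) p) hz1
    obtain ⟨s', t', hs', ht', hst', -, e2⟩ := dt_segment (a := a) (g := (p :: l).getD (i + 1) p) hz2
    have h1 := hr j (by omega) (by omega)
    have h2 := hr (j + 1) (by omega) (by omega)
    have h0 : dt a ((p :: l).getD (i + 1) p - (p :: l).getD (i + 1) p) = 0 := by
      rw [dt_sub]; ring
    rw [h0] at e1
    have h3 : dt a (z - (p :: l).getD (i + 1) p) ≤ 0 := by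
      rw [e1]; nlinarith
    have h4 : 0 < dt a (z - (p :: l).getD (i + 1) p) := by
      rw [e2]
      rcases lt_or_eq_of_le hs' with h | h
      · have := mul_pos h h1
        have := mul_nonneg ht' h2.le
        linarith
      · have : t' = 1 := by linarith
        rw [← h, this]; linarith
    linarith
  · intro i hi
    obtain ⟨a, ha, hr⟩ := hgood.get p l p i (by omega)
    apply Set.eq_singleton_iff_unique_mem.mpr
    refine ⟨⟨right_mem_segment ℝ _ _, left_mem_segment ℝ _ _⟩, ?_⟩
    rintro z ⟨hz1, hz2⟩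
    obtain ⟨s, t, hs, ht, hst, -, e1⟩ := dt_segment (a := a) (g := (p :: l).getD (i + 1) p) hz1
    obtain ⟨s', t', hs', ht', hst', hz, e2⟩ :=
      dt_segment (a := a) (g := (p :: l).getD (i + 1) p) hz2
    have h2 := hr (i + 2) (by omega) (by omega)
    have h0 : dt a ((p :: l).getD (i + 1) p - (p :: l).getD (i + 1) p) = 0 := by
      rw [dt_sub]; ring
    rw [h0] at e1 e2
    have h3 : dt a (z - (p :: l).getD (i + 1) p) ≤ 0 := by
      rw [e1]; nlinarith
    have h5 : t' * dt a ((p :: l).getD (i + 2) p - (p :: l).getD (i + 1) p) ≤ 0 := by linarith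
    have h6 : t' = 0 := by
      by_contra hne
      have : 0 < t' := lt_of_le_of_ne ht' (Ne.symm hne)
      have := mul_pos this h2
      linarith
    have h7 : s' = 1 := by linarith
    rw [hz, h6, h7, one_smul, zero_smul, add_zero]

/-- The determinant form of general position. -/
theorem gp_of_not_collinear {P : Finset (ℝ × ℝ)}
    (h : ∀ p ∈ P, ∀ q ∈ P, ∀ r ∈ P, p ≠ q → p ≠ r → q ≠ r →
      ¬ Collinear ℝ ({p, q, r} : Set (ℝ × ℝ))) : GP P := by
  intro p hp q hq r hr hpq hpr hqr h0
  apply h p hp q hq r hr hpq hpr hqr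
  rw [collinear_iff_of_mem (p₀ := p) (by simp)]
  refine ⟨q - p, ?_⟩
  intro z hz
  simp only [Set.mem_insert_iff, Set.mem_singleton_iff] at hz
  rcases hz with rfl | rfl | rfl
  · exact ⟨0, by simp⟩
  · exact ⟨1, by simp⟩
  · have hne : q - p ≠ 0 := sub_ne_zero.mpr hpq.symm
    have hpos := dt_self_pos hne
    refine ⟨dt (q - p) (z - p) / dt (q - p) (q - p), ?_⟩
    have e : ∀ w : ℝ × ℝ, w = (dt (q - p) (z - p) / dt (q - p) (q - p)) • (q - p) + p ↔
        (dt (q - p) (q - p)) • (w - p) = (dt (q - p) (z - p)) • (q - p) := by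
      intro w
      constructor
      · intro hw
        have : w - p = (dt (q - p) (z - p) / dt (q - p) (q - p)) • (q - p) := by
          rw [hw]; simp
        rw [this, smul_smul, mul_div_cancel₀ _ hpos.ne']
      · intro hw
        have : w - p = (dt (q - p) (z - p) / dt (q - p) (q - p)) • (q - p) := by
          rw [div_eq_inv_mul, mul_smul, ← hw, smul_smul, inv_mul_cancel₀ hpos.ne', one_smul]
        rw [← this]; simp
    rw [vadd_eq_add]
    rw [e z]
    simp only [cr, Prod.fst_sub, Prod.snd_sub] at h0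
    refine Prod.ext ?_ ?_
    · simp only [dt, Prod.smul_fst, Prod.fst_sub, Prod.snd_sub, smul_eq_mul]
      linear_combination (-(q.2 - p.2)) * h0
    · simp only [dt, Prod.smul_snd, Prod.fst_sub, Prod.snd_sub, smul_eq_mul]
      linear_combination ((q.1 - p.1)) * h0

end Pool.Agent.AltPath
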