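import Pool.Agent.AltPath.Strategy

/-! The parameters of the recursion as exponentials. -/

namespace Pool.Agent.AltPath

open Real

theorem exp_neg_half_gt : (3 / 5 : ℝ) < Real.exp (-(1 / 2)) := by
  have h1 : Real.exp (-(1 / 2)) * Real.exp (-(1 / 2)) = (Real.exp 1)⁻¹ := by
    rw [← Real.exp_add, ← Real.exp_neg]; norm_num
  have h2 : Real.exp 1 < 2.7182818286 := Real.exp_one_lt_d9
  have h3 : (1 / 2.7182818286 : ℝ) < (Real.exp 1)⁻¹ := by
    rw [inv_eq_one_div]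
    exact one_div_lt_one_div_of_lt (Real.exp_pos 1) h2
  have h4 : (9 / 25 : ℝ) < (Real.exp 1)⁻¹ := lt_trans (by norm_num) h3
  rw [← h1] at h4
  by_contra hcon
  push Not at hcon
  have h5 := Real.exp_pos (-(1 / 2))
  nlinarith

theorem exp_neg_two_lt : Real.exp (-2) < 1 / 5 := by
  have h1 : Real.exp (-2) = (Real.exp 1)⁻¹ * (Real.exp 1)⁻¹ := by
    rw [← Real.exp_neg, ← Real.exp_add]; norm_num
  have h2 : 2.7182818283 < Real.exp 1 := Real.exp_one_gt_d9
  have h3 : (Real.exp 1)⁻¹ < 1 / 2.7182818283 := by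
    rw [inv_eq_one_div]
    exact one_div_lt_one_div_of_lt (by norm_num) h2
  have h4 : (Real.exp 1)⁻¹ < 2 / 5 := lt_trans h3 (by norm_num)
  have h5 : 0 < (Real.exp 1)⁻¹ := inv_pos.mpr (Real.exp_pos 1)
  rw [h1]
  nlinarith

/-- The key inequality. -/
theorem cosh_key (L : ℝ) (hL : 0 ≤ L) :
    Real.cosh (3 * L / 4 + L ^ 2 / 8) ≤ Real.exp (13 * L ^ 2 / 32) := by
  by_cases h : L ≤ 6 / 5
  · refine (Real.cosh_le_exp_half_sq _).trans (Real.exp_le_exp.mpr ?_)
    have h1 : (3 * L / 4 + L ^ 2 / 8) ^ 2 / 2 = L ^ 2 * (6 + L) ^ 2 / 128 := by ring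
    rw [h1]
    have h2 : (6 + L) ^ 2 ≤ 52 := by nlinarith
    have h3 := mul_le_mul_of_nonneg_left h2 (sq_nonneg L)
    linarith
  · push Not at h
    have ht : 1 ≤ 3 * L / 4 + L ^ 2 / 8 := by nlinarith
    set t := 3 * L / 4 + L ^ 2 / 8 with htdef
    have h1 : Real.cosh t = Real.exp t * ((1 + Real.exp (-2 * t)) / 2) := by
      rw [Real.cosh_eq]
      have : Real.exp (-t) = Real.exp t * Real.exp (-2 * t) := by
        rw [← Real.exp_add]; congr 1; ring
      rw [this]; ring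
    have h2 : Real.exp (-2 * t) ≤ 1 / 5 := by
      refine le_trans (Real.exp_le_exp.mpr ?_) exp_neg_two_lt.le
      linarith
    have h3 : (1 + Real.exp (-2 * t)) / 2 ≤ Real.exp (-(1 / 2)) := by
      have := exp_neg_half_gt
      linarith
    rw [h1]
    calc Real.exp t * ((1 + Real.exp (-2 * t)) / 2)
        ≤ Real.exp t * Real.exp (-(1 / 2)) := mul_le_mul_of_nonneg_left h3 (Real.exp_pos t).le
      _ = Real.exp (t - 1 / 2) := by rw [← Real.exp_add]; congr 1
      _ ≤ Real.exp (13 * L ^ 2 / 32) := by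
          apply Real.exp_le_exp.mpr
          rw [htdef]
          nlinarith [sq_nonneg (L - 4 / 3)]

theorem params (L : ℝ) (hL : 0 ≤ L) :
    Params (Real.exp (-L)) (Real.exp (L / 2)) (Real.exp (-L / 4 - L ^ 2 / 32))
      (Real.exp (L / 4 - L ^ 2 / 32)) (Real.exp (-3 * L / 4 + 9 * L ^ 2 / 32)) := by
  have hkey := cosh_key L hL
  refine ⟨(Real.exp_pos _).le, (Real.exp_pos _).le, (Real.exp_pos _).le, ?_, ?_, ?_, ?_, ?_, ?_⟩
  · have h1 : Real.exp (-L / 4 - L ^ 2 / 32) + Real.exp (L / 4 - L ^ 2 / 32)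
        = 2 * (Real.exp (-(L ^ 2 / 32)) * Real.cosh (L / 4)) := by
      rw [Real.cosh_eq]
      have e1 : Real.exp (-L / 4 - L ^ 2 / 32) = Real.exp (-(L ^ 2 / 32)) * Real.exp (-(L / 4)) := by
        rw [← Real.exp_add]; congr 1; ring
      have e2 : Real.exp (L / 4 - L ^ 2 / 32) = Real.exp (-(L ^ 2 / 32)) * Real.exp (L / 4) := by
        rw [← Real.exp_add]; congr 1; ring
      rw [e1, e2]; ring
    rw [h1]
    have h2 := Real.cosh_le_exp_half_sq (L / 4)
    have h3 : Real.exp (-(L ^ 2 / 32)) * Real.exp ((L / 4) ^ 2 / 2) = 1 := by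
      rw [← Real.exp_add, ← Real.exp_zero]; congr 1; ring
    have h4 := mul_le_mul_of_nonneg_left h2 (Real.exp_pos (-(L ^ 2 / 32))).le
    linarith
  · have h1 : Real.exp (-L) ^ 2 + Real.exp (-L) * Real.exp (L / 4 - L ^ 2 / 32)
          * Real.exp (-3 * L / 4 + 9 * L ^ 2 / 32)
        = 2 * (Real.exp (-7 * L / 4 + L ^ 2 / 8) * Real.cosh (L / 4 + L ^ 2 / 8)) := by
      rw [Real.cosh_eq, ← Real.exp_nat_mul]
      have e1 : Real.exp (((2 : ℕ) : ℝ) * -L) = Real.exp (-7 * L / 4 + L ^ 2 / 8)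
          * Real.exp (-(L / 4 + L ^ 2 / 8)) := by
        rw [← Real.exp_add]; congr 1; push_cast; ring
      have e2 : Real.exp (-L) * Real.exp (L / 4 - L ^ 2 / 32)
          * Real.exp (-3 * L / 4 + 9 * L ^ 2 / 32) = Real.exp (-7 * L / 4 + L ^ 2 / 8)
          * Real.exp (L / 4 + L ^ 2 / 8) := by
        rw [← Real.exp_add, ← Real.exp_add, ← Real.exp_add]; congr 1; ring
      rw [e1, e2]; ring
    have h2 : 2 * Real.exp (-L / 4 - L ^ 2 / 32) * Real.exp (-3 * L / 4 + 9 * L ^ 2 / 32) ^ 2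
        = 2 * (Real.exp (-7 * L / 4 + L ^ 2 / 8) * Real.exp (13 * L ^ 2 / 32)) := by
      rw [← Real.exp_nat_mul, mul_assoc, ← Real.exp_add, ← Real.exp_add]
      congr 2; push_cast; ring
    rw [h1, h2]
    have h3 : Real.cosh (L / 4 + L ^ 2 / 8) ≤ Real.cosh (3 * L / 4 + L ^ 2 / 8) := by
      rw [Real.cosh_le_cosh]
      rw [abs_of_nonneg (by positivity), abs_of_nonneg (by positivity)]
      linarith
    have h4 := mul_le_mul_of_nonneg_left (h3.trans hkey) (Real.exp_pos (-7 * L / 4 + L ^ 2 / 8)).le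
    linarith
  · have h1 : Real.exp (-L) ^ 2 + Real.exp (L / 4 - L ^ 2 / 32)
          * Real.exp (-3 * L / 4 + 9 * L ^ 2 / 32)
        = 2 * (Real.exp (-5 * L / 4 + L ^ 2 / 8) * Real.cosh (3 * L / 4 + L ^ 2 / 8)) := by
      rw [Real.cosh_eq, ← Real.exp_nat_mul]
      have e1 : Real.exp (((2 : ℕ) : ℝ) * -L) = Real.exp (-5 * L / 4 + L ^ 2 / 8)
          * Real.exp (-(3 * L / 4 + L ^ 2 / 8)) := by
        rw [← Real.exp_add]; congr 1; push_cast; ring
      have e2 : Real.exp (L / 4 - L ^ 2 / 32)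
          * Real.exp (-3 * L / 4 + 9 * L ^ 2 / 32) = Real.exp (-5 * L / 4 + L ^ 2 / 8)
          * Real.exp (3 * L / 4 + L ^ 2 / 8) := by
        rw [← Real.exp_add, ← Real.exp_add]; congr 1; ring
      rw [e1, e2]; ring
    have h2 : 2 * Real.exp (L / 4 - L ^ 2 / 32) * Real.exp (-3 * L / 4 + 9 * L ^ 2 / 32) ^ 2
        = 2 * (Real.exp (-5 * L / 4 + L ^ 2 / 8) * Real.exp (13 * L ^ 2 / 32)) := by
      rw [← Real.exp_nat_mul, mul_assoc, ← Real.exp_add, ← Real.exp_add]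
      congr 2; push_cast; ring
    rw [h1, h2]
    have h4 := mul_le_mul_of_nonneg_left hkey (Real.exp_pos (-5 * L / 4 + L ^ 2 / 8)).le
    linarith
  · rw [← Real.exp_add, ← Real.exp_add]
    apply Real.exp_le_exp.mpr
    nlinarith [sq_nonneg L]
  · rw [← Real.exp_add, ← Real.exp_add, ← Real.exp_zero]
    apply Real.exp_le_exp.mpr
    nlinarith [sq_nonneg L]
  · rw [← Real.exp_zero]
    apply Real.exp_le_exp.mpr
    linarith

end Pool.Agent.AltPath
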