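import Pool.Agent.AltPath.Geom

/-! The strategy with one remembered hull vertex, with exponential moments over all colourings. -/

namespace Pool.Agent.AltPath

/-- Each step of the list, started at the given point, is cut off by a line from all later points. -/
def Good : ℝ × ℝ → List (ℝ × ℝ) → Prop
  | _, [] => True
  | p, q :: l => (∃ a : ℝ × ℝ, dt a (p - q) < 0 ∧ ∀ r ∈ l, 0 < dt a (r - q)) ∧ Good q l

/-- The colours of the list alternate, the first one being opposite to c (true is red). -/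
def Alt (S : Finset (ℝ × ℝ)) : Bool → List (ℝ × ℝ) → Prop
  | _, [] => True
  | c, q :: l => (q ∈ S ↔ c = false) ∧ Alt S (!c) l

theorem Alt.congr {S T : Finset (ℝ × ℝ)} : ∀ (l : List (ℝ × ℝ)) (c : Bool),
    (∀ q ∈ l, (q ∈ S ↔ q ∈ T)) → Alt S c l → Alt T c l
  | [], _, _, _ => trivial
  | q :: l, c, h, hl => by
    refine ⟨?_, Alt.congr l (!c) (fun r hr => h r (List.mem_cons_of_mem q hr)) hl.2⟩
    rw [← h q List.mem_cons_self]
    exact hl.1

/-- A valid continuation with N points inside Q, from p of colour c, the red points being S. -/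
def OK (p : ℝ × ℝ) (c : Bool) (Q S : Finset (ℝ × ℝ)) (N : ℕ) : Prop :=
  ∃ l : List (ℝ × ℝ), l.length = N ∧ l.Nodup ∧ (∀ q ∈ l, q ∈ Q) ∧ Good p l ∧ Alt S c l

theorem OK.nil (p : ℝ × ℝ) (c : Bool) (Q S : Finset (ℝ × ℝ)) : OK p c Q S 0 :=
  ⟨[], rfl, List.nodup_nil, by simp, trivial, trivial⟩

theorem OK.cons {p g : ℝ × ℝ} {c : Bool} {Q S S' : Finset (ℝ × ℝ)} {N : ℕ}
    (hv : Vis p Q g) (hc : g ∈ S ↔ c = false) (hS : ∀ q ∈ Q.erase g, (q ∈ S' ↔ q ∈ S))
    (h : OK g (!c) (Q.erase g) S' N) : OK p c Q S (N + 1) := by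
  obtain ⟨l, hl, hnd, hQ, hgood, halt⟩ := h
  obtain ⟨hg, a, ha, hap⟩ := hv
  refine ⟨g :: l, by simp [hl], ?_, ?_, ⟨⟨a, hap, ?_⟩, hgood⟩, ⟨hc, ?_⟩⟩
  · refine List.nodup_cons.mpr ⟨?_, hnd⟩
    intro hgl
    exact (Finset.mem_erase.mp (hQ g hgl)).1 rfl
  · intro q hq
    rcases List.mem_cons.mp hq with rfl | hq
    · exact hg
    · exact (Finset.mem_erase.mp (hQ q hq)).2
  · intro r hr
    have := Finset.mem_erase.mp (hQ r hr)
    exact ha r this.2 this.1
  · exact halt.congr l (!c) (fun q hq => hS q (hQ q hq))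

theorem OK.mono {p g : ℝ × ℝ} {c : Bool} {Q S S' : Finset (ℝ × ℝ)} {N : ℕ}
    (hS : ∀ q ∈ Q.erase g, (q ∈ S' ↔ q ∈ S))
    (h : OK p c (Q.erase g) S' N) : OK p c Q S N := by
  obtain ⟨l, hl, hnd, hQ, hgood, halt⟩ := h
  exact ⟨l, hl, hnd, fun q hq => (Finset.mem_erase.mp (hQ q hq)).2, hgood,
    halt.congr l c (fun q hq => hS q (hQ q hq))⟩

/-- Colour g: red if b is true. -/
noncomputable def put (b : Bool) (g : ℝ × ℝ) (S : Finset (ℝ × ℝ)) : Finset (ℝ × ℝ) :=
  match b with
  | true => insert g S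
  | false => S

theorem mem_put_self {b : Bool} {g : ℝ × ℝ} {S : Finset (ℝ × ℝ)} (hg : g ∉ S) :
    g ∈ put b g S ↔ b = true := by
  cases b <;> simp [put, hg]

theorem mem_put_of_ne {b : Bool} {g q : ℝ × ℝ} {S : Finset (ℝ × ℝ)} (hq : q ≠ g) :
    q ∈ put b g S ↔ q ∈ S := by
  cases b <;> simp [put, hq]

theorem put_erase {b : Bool} {g : ℝ × ℝ} {S : Finset (ℝ × ℝ)} (hg : g ∉ S) :
    (put b g S).erase g = S := by
  cases b <;> simp [put, hg]

theorem put_erase_self {b : Bool} {g : ℝ × ℝ} {S : Finset (ℝ × ℝ)} (h : g ∈ S ↔ b = true) :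
    put b g (S.erase g) = S := by
  cases b
  · have : g ∉ S := by simpa using h
    simp [put, this]
  · have : g ∈ S := by simpa using h
    simp [put, this]

theorem sum_split (b : Bool) {g : ℝ × ℝ} {Q : Finset (ℝ × ℝ)} (hg : g ∈ Q)
    (f : Finset (ℝ × ℝ) → ℝ) :
    ∑ S ∈ Q.powerset, f S =
      ∑ S ∈ (Q.erase g).powerset, f (put b g S) + ∑ S ∈ (Q.erase g).powerset, f (put (!b) g S) := by
  classical
  have h := Finset.sum_powerset_insert (Finset.notMem_erase g Q) f
  rw [Finset.insert_erase hg] at h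
  rw [h]
  cases b
  · rfl
  · exact add_comm _ _

/-- The numbers used in the recursion. -/
structure Params (x K γ β ρ : ℝ) : Prop where
  x0 : 0 ≤ x
  K0 : 0 ≤ K
  r0 : 0 ≤ ρ
  h1 : γ + β ≤ 2
  h2 : x ^ 2 + x * β * ρ ≤ 2 * γ * ρ ^ 2
  h3 : x ^ 2 + β * ρ ≤ 2 * β * ρ ^ 2
  h4 : x ≤ K * γ * ρ
  h5 : 1 ≤ K * β * ρ
  h6 : 1 ≤ K

def PF (x K ρ : ℝ) (m : ℕ) : Prop :=
  ∀ (p : ℝ × ℝ) (Q : Finset (ℝ × ℝ)) (c : Bool), Q.card = m → p ∉ Q → GP (insert p Q) → Sep p Q →
    ∃ N : Finset (ℝ × ℝ) → ℕ, (∀ S, S ⊆ Q → OK p c Q S (N S)) ∧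
      ∑ S ∈ Q.powerset, x ^ (N S) ≤ K * (2 * ρ) ^ m

def PG (x K γ ρ : ℝ) (m : ℕ) : Prop :=
  ∀ (p g : ℝ × ℝ) (Q : Finset (ℝ × ℝ)) (c : Bool), Q.card = m + 1 → p ∉ Q → GP (insert p Q) →
    Vis p Q g → ∃ N : Finset (ℝ × ℝ) → ℕ,
      (∀ S, S ⊆ Q.erase g → OK p c Q (put (!c) g S) (N S)) ∧
      ∑ S ∈ (Q.erase g).powerset, x ^ (N S) ≤ K * γ * ρ * (2 * ρ) ^ m

def PB (x K β ρ : ℝ) (m : ℕ) : Prop :=
  ∀ (p g : ℝ × ℝ) (Q : Finset (ℝ × ℝ)) (c : Bool), Q.card = m + 1 → p ∉ Q → GP (insert p Q) →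
    Vis p Q g → ∃ N : Finset (ℝ × ℝ) → ℕ,
      (∀ S, S ⊆ Q.erase g → OK p c Q (put c g S) (N S)) ∧
      ∑ S ∈ (Q.erase g).powerset, x ^ (N S) ≤ K * β * ρ * (2 * ρ) ^ m

theorem PF_zero {x K γ β ρ : ℝ} (h : Params x K γ β ρ) : PF x K ρ 0 := by
  intro p Q c hQ hp hgp hsep
  rw [Finset.card_eq_zero] at hQ
  subst hQ
  refine ⟨fun _ => 0, fun S _ => OK.nil p c _ S, ?_⟩
  simpa using h.h6

theorem PG_zero {x K γ β ρ : ℝ} (h : Params x K γ β ρ) : PG x K γ ρ 0 := by
  intro p g Q c hQ hp hgp hv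
  have hgQ := hv.1
  have he : Q.erase g = ∅ := by
    rw [← Finset.card_eq_zero, Finset.card_erase_of_mem hgQ, hQ]
  refine ⟨fun _ => 1, ?_, ?_⟩
  · intro S hS
    rw [he] at hS
    have hgS : g ∉ S := fun hg => absurd (hS hg) (Finset.notMem_empty g)
    refine OK.cons (S' := S) hv ?_ ?_ (OK.nil g (!c) _ S)
    · rw [mem_put_self hgS]; cases c <;> simp
    · intro q hq
      rw [mem_put_of_ne (Finset.mem_erase.mp hq).1]
  · rw [he]
    simpa using h.h4

theorem PB_zero {x K γ β ρ : ℝ} (h : Params x K γ β ρ) : PB x K β ρ 0 := by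
  intro p g Q c hQ hp hgp hv
  have he : Q.erase g = ∅ := by
    rw [← Finset.card_eq_zero, Finset.card_erase_of_mem hv.1, hQ]
  refine ⟨fun _ => 0, fun S _ => OK.nil p c _ _, ?_⟩
  rw [he]
  simpa using h.h5

theorem PF_succ {x K γ β ρ : ℝ} (h : Params x K γ β ρ) {m : ℕ} (hG : PG x K γ ρ m)
    (hB : PB x K β ρ m) : PF x K ρ (m + 1) := by
  classical
  intro p Q c hQ hp hgp hsep
  obtain ⟨g, hv⟩ := hsep.exists_vis (Finset.card_pos.mp (by omega))
  obtain ⟨N1, hN1, hs1⟩ := hG p g Q c hQ hp hgp hv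
  obtain ⟨N2, hN2, hs2⟩ := hB p g Q c hQ hp hgp hv
  refine ⟨fun S => if (g ∈ S ↔ (!c) = true) then N1 (S.erase g) else N2 (S.erase g), ?_, ?_⟩
  · intro S hS
    have hsub : S.erase g ⊆ Q.erase g := Finset.erase_subset_erase g hS
    by_cases hc : (g ∈ S ↔ (!c) = true)
    · simp only [hc, if_true]
      have := hN1 _ hsub
      rwa [put_erase_self hc] at this
    · simp only [hc, if_false]
      have hc' : g ∈ S ↔ c = true := by
        cases c <;> simp at hc ⊢ <;> exact hc
      have := hN2 _ hsub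
      rwa [put_erase_self hc'] at this
  · rw [sum_split (!c) hv.1]
    have e1 : ∑ S ∈ (Q.erase g).powerset,
        x ^ (if (g ∈ put (!c) g S ↔ (!c) = true) then N1 ((put (!c) g S).erase g)
          else N2 ((put (!c) g S).erase g)) = ∑ S ∈ (Q.erase g).powerset, x ^ (N1 S) := by
      refine Finset.sum_congr rfl fun S hS => ?_
      have hgS : g ∉ S := fun hg =>
        (Finset.mem_erase.mp (Finset.mem_powerset.mp hS hg)).1 rfl
      rw [if_pos (mem_put_self hgS), put_erase hgS]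
    have e2 : ∑ S ∈ (Q.erase g).powerset,
        x ^ (if (g ∈ put (!(!c)) g S ↔ (!c) = true) then N1 ((put (!(!c)) g S).erase g)
          else N2 ((put (!(!c)) g S).erase g)) = ∑ S ∈ (Q.erase g).powerset, x ^ (N2 S) := by
      refine Finset.sum_congr rfl fun S hS => ?_
      have hgS : g ∉ S := fun hg =>
        (Finset.mem_erase.mp (Finset.mem_powerset.mp hS hg)).1 rfl
      have hneg : ¬ (g ∈ put (!(!c)) g S ↔ (!c) = true) := by
        rw [mem_put_self hgS]; cases c <;> simp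
      rw [if_neg hneg, put_erase hgS]
    rw [e1, e2]
    calc ∑ S ∈ (Q.erase g).powerset, x ^ (N1 S) + ∑ S ∈ (Q.erase g).powerset, x ^ (N2 S)
        ≤ K * γ * ρ * (2 * ρ) ^ m + K * β * ρ * (2 * ρ) ^ m := add_le_add hs1 hs2
      _ = (γ + β) * (K * ρ * (2 * ρ) ^ m) := by ring
      _ ≤ 2 * (K * ρ * (2 * ρ) ^ m) := by
          have hr := h.r0
          have hK := h.K0
          exact mul_le_mul_of_nonneg_right h.h1 (by positivity)
      _ = K * (2 * ρ) ^ (m + 1) := by ring

theorem erase_comm' {Q : Finset (ℝ × ℝ)} (g u : ℝ × ℝ) :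
    (Q.erase u).erase g = (Q.erase g).erase u := by
  classical
  exact Finset.erase_right_comm

theorem PG_succ {x K γ β ρ : ℝ} (h : Params x K γ β ρ) {m : ℕ} (hF : PF x K ρ m)
    (hB : PB x K β ρ m) : PG x K γ ρ (m + 1) := by
  classical
  intro p g Q c hQ hp hgp hv
  obtain ⟨u, hedge⟩ := exists_edge hp hgp hv (by omega)
  have hgQ : g ∈ Q := hv.1
  have huQ : u ∈ Q := hedge.2.1
  have hug : u ≠ g := hedge.2.2.1
  have huQg : u ∈ Q.erase g := Finset.mem_erase.mpr ⟨hug, huQ⟩
  have hgQu : g ∈ Q.erase u := Finset.mem_erase.mpr ⟨hug.symm, hgQ⟩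
  have cardg : (Q.erase g).card = m + 1 := by
    rw [Finset.card_erase_of_mem hgQ, hQ]; omega
  have cardu : (Q.erase u).card = m + 1 := by
    rw [Finset.card_erase_of_mem huQ, hQ]; omega
  have cardgu : ((Q.erase g).erase u).card = m := by
    rw [Finset.card_erase_of_mem huQg, cardg]; omega
  have hvgu : Vis g (Q.erase g) u := hedge.vis_end
  have hvug : Vis u (Q.erase u) g := hedge.symm'.vis_end
  have gpu : GP (insert u ((Q.erase g).erase u)) := by
    apply hgp.mono
    intro z hz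
    rcases Finset.mem_insert.mp hz with rfl | hz
    · exact Finset.mem_insert_of_mem huQ
    · exact Finset.mem_insert_of_mem (Finset.mem_erase.mp (Finset.mem_erase.mp hz).2).2
  have gpu' : GP (insert u (Q.erase u)) := by
    apply hgp.mono
    rw [Finset.insert_erase huQ]
    exact Finset.subset_insert _ _
  obtain ⟨N3, hN3, hs3⟩ := hF u ((Q.erase g).erase u) c cardgu (Finset.notMem_erase u _) gpu
    hvgu.sep
  obtain ⟨N4, hN4, hs4⟩ := hB u g (Q.erase u) (!c) cardu (Finset.notMem_erase u _) gpu' hvug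
  refine ⟨fun S => if (u ∈ S ↔ c = true) then N3 (S.erase u) + 2 else N4 (S.erase u) + 1, ?_, ?_⟩
  · intro S hS
    have hgS : g ∉ S := fun hg => (Finset.mem_erase.mp (hS hg)).1 rfl
    have hsub : S.erase u ⊆ (Q.erase g).erase u := Finset.erase_subset_erase u hS
    by_cases hc : (u ∈ S ↔ c = true)
    · simp only [hc, if_true]
      have h3 := hN3 _ hsub
      have hstep : OK g (!c) (Q.erase g) S (N3 (S.erase u) + 1) := by
        refine OK.cons (S' := S.erase u) hvgu ?_ ?_ ?_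
        · rw [hc]; cases c <;> simp
        · intro q hq
          rw [Finset.mem_erase]
          exact ⟨fun t => t.2, fun t => ⟨(Finset.mem_erase.mp hq).1, t⟩⟩
        · simpa using h3
      refine OK.cons (S' := S) hv ?_ ?_ hstep
      · rw [mem_put_self hgS]; cases c <;> simp
      · intro q hq
        rw [mem_put_of_ne (Finset.mem_erase.mp hq).1]
    · simp only [hc, if_false]
      have hc' : u ∈ S ↔ c = false := by
        cases c <;> simp at hc ⊢ <;> exact hc
      have hsub' : S.erase u ⊆ (Q.erase u).erase g := by rw [erase_comm']; exact hsub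
      have h4 := hN4 _ hsub'
      refine OK.cons (S' := put (!c) g (S.erase u)) hedge.vis ?_ ?_ h4
      · rw [mem_put_of_ne hug]; exact hc'
      · intro q hq
        have hqu := (Finset.mem_erase.mp hq).1
        by_cases hqg : q = g
        · subst hqg
          rw [mem_put_self (fun t => hgS (Finset.mem_erase.mp t).2), mem_put_self hgS]
        · rw [mem_put_of_ne hqg, mem_put_of_ne hqg, Finset.mem_erase]
          exact ⟨fun t => t.2, fun t => ⟨hqu, t⟩⟩
  · rw [sum_split c huQg]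
    have e1 : ∑ S ∈ ((Q.erase g).erase u).powerset,
        x ^ (if (u ∈ put c u S ↔ c = true) then N3 ((put c u S).erase u) + 2
          else N4 ((put c u S).erase u) + 1) =
        x ^ 2 * ∑ S ∈ ((Q.erase g).erase u).powerset, x ^ (N3 S) := by
      rw [Finset.mul_sum]
      refine Finset.sum_congr rfl fun S hS => ?_
      have huS : u ∉ S := fun hg =>
        (Finset.mem_erase.mp (Finset.mem_powerset.mp hS hg)).1 rfl
      rw [if_pos (mem_put_self huS), put_erase huS]
      ring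
    have e2 : ∑ S ∈ ((Q.erase g).erase u).powerset,
        x ^ (if (u ∈ put (!c) u S ↔ c = true) then N3 ((put (!c) u S).erase u) + 2
          else N4 ((put (!c) u S).erase u) + 1) =
        x * ∑ S ∈ ((Q.erase g).erase u).powerset, x ^ (N4 S) := by
      rw [Finset.mul_sum]
      refine Finset.sum_congr rfl fun S hS => ?_
      have huS : u ∉ S := fun hg =>
        (Finset.mem_erase.mp (Finset.mem_powerset.mp hS hg)).1 rfl
      have hneg : ¬ (u ∈ put (!c) u S ↔ c = true) := by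
        rw [mem_put_self huS]; cases c <;> simp
      rw [if_neg hneg, put_erase huS]
      ring
    rw [e1, e2]
    rw [erase_comm'] at hs4
    have hx := h.x0
    have hr := h.r0
    have hK := h.K0
    calc x ^ 2 * ∑ S ∈ ((Q.erase g).erase u).powerset, x ^ (N3 S)
          + x * ∑ S ∈ ((Q.erase g).erase u).powerset, x ^ (N4 S)
        ≤ x ^ 2 * (K * (2 * ρ) ^ m) + x * (K * β * ρ * (2 * ρ) ^ m) :=
          add_le_add (mul_le_mul_of_nonneg_left hs3 (by positivity))
            (mul_le_mul_of_nonneg_left hs4 hx)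
      _ = (x ^ 2 + x * β * ρ) * (K * (2 * ρ) ^ m) := by ring
      _ ≤ (2 * γ * ρ ^ 2) * (K * (2 * ρ) ^ m) :=
          mul_le_mul_of_nonneg_right h.h2 (by positivity)
      _ = K * γ * ρ * (2 * ρ) ^ (m + 1) := by ring

theorem PB_succ {x K γ β ρ : ℝ} (h : Params x K γ β ρ) {m : ℕ} (hF : PF x K ρ m)
    (hB : PB x K β ρ m) : PB x K β ρ (m + 1) := by
  classical
  intro p g Q c hQ hp hgp hv
  obtain ⟨u, hedge⟩ := exists_edge hp hgp hv (by omega)
  have hgQ : g ∈ Q := hv.1
  have huQ : u ∈ Q := hedge.2.1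
  have hug : u ≠ g := hedge.2.2.1
  have huQg : u ∈ Q.erase g := Finset.mem_erase.mpr ⟨hug, huQ⟩
  have hgQu : g ∈ Q.erase u := Finset.mem_erase.mpr ⟨hug.symm, hgQ⟩
  have cardg : (Q.erase g).card = m + 1 := by
    rw [Finset.card_erase_of_mem hgQ, hQ]; omega
  have cardu : (Q.erase u).card = m + 1 := by
    rw [Finset.card_erase_of_mem huQ, hQ]; omega
  have cardug : ((Q.erase u).erase g).card = m := by
    rw [Finset.card_erase_of_mem hgQu, cardu]; omega
  have hvug : Vis u (Q.erase u) g := hedge.symm'.vis_end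
  have gpg : GP (insert g ((Q.erase u).erase g)) := by
    apply hgp.mono
    intro z hz
    rcases Finset.mem_insert.mp hz with rfl | hz
    · exact Finset.mem_insert_of_mem hgQ
    · exact Finset.mem_insert_of_mem (Finset.mem_erase.mp (Finset.mem_erase.mp hz).2).2
  have gpp : GP (insert p (Q.erase g)) :=
    hgp.mono (Finset.insert_subset_insert _ (Finset.erase_subset _ _))
  obtain ⟨N3, hN3, hs3⟩ := hF g ((Q.erase u).erase g) c cardug (Finset.notMem_erase g _) gpg
    hvug.sep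
  obtain ⟨N4, hN4, hs4⟩ := hB p u (Q.erase g) c cardg
    (fun t => hp (Finset.mem_erase.mp t).2) gpp hedge.vis_erase
  refine ⟨fun S => if (u ∈ S ↔ c = false) then N3 (S.erase u) + 2 else N4 (S.erase u), ?_, ?_⟩
  · intro S hS
    have hgS : g ∉ S := fun hg => (Finset.mem_erase.mp (hS hg)).1 rfl
    have hsub : S.erase u ⊆ (Q.erase g).erase u := Finset.erase_subset_erase u hS
    by_cases hc : (u ∈ S ↔ c = false)
    · simp only [hc, if_true]
      have h3 := hN3 (S.erase u) (by rw [erase_comm']; exact hsub)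
      have hstep : OK u (!c) (Q.erase u) (put c g (S.erase u)) (N3 (S.erase u) + 1) := by
        refine OK.cons (S' := S.erase u) hvug ?_ ?_ ?_
        · rw [mem_put_self (fun t => hgS (Finset.mem_erase.mp t).2)]; cases c <;> simp
        · intro q hq
          rw [mem_put_of_ne (Finset.mem_erase.mp hq).1]
        · simpa using h3
      refine OK.cons (S' := put c g (S.erase u)) hedge.vis ?_ ?_ hstep
      · rw [mem_put_of_ne hug]; exact hc
      · intro q hq
        have hqu := (Finset.mem_erase.mp hq).1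
        by_cases hqg : q = g
        · subst hqg
          rw [mem_put_self (fun t => hgS (Finset.mem_erase.mp t).2), mem_put_self hgS]
        · rw [mem_put_of_ne hqg, mem_put_of_ne hqg, Finset.mem_erase]
          exact ⟨fun t => t.2, fun t => ⟨hqu, t⟩⟩
    · simp only [hc, if_false]
      have hc' : u ∈ S ↔ c = true := by
        cases c <;> simp at hc ⊢ <;> exact hc
      have h4 := hN4 _ hsub
      rw [put_erase_self hc'] at h4
      refine OK.mono (g := g) ?_ h4
      intro q hq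
      rw [mem_put_of_ne (Finset.mem_erase.mp hq).1]
  · rw [sum_split (!c) huQg]
    have e1 : ∑ S ∈ ((Q.erase g).erase u).powerset,
        x ^ (if (u ∈ put (!c) u S ↔ c = false) then N3 ((put (!c) u S).erase u) + 2
          else N4 ((put (!c) u S).erase u)) =
        x ^ 2 * ∑ S ∈ ((Q.erase g).erase u).powerset, x ^ (N3 S) := by
      rw [Finset.mul_sum]
      refine Finset.sum_congr rfl fun S hS => ?_
      have huS : u ∉ S := fun hg =>
        (Finset.mem_erase.mp (Finset.mem_powerset.mp hS hg)).1 rfl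
      have hpos : (u ∈ put (!c) u S ↔ c = false) := by
        rw [mem_put_self huS]; cases c <;> simp
      rw [if_pos hpos, put_erase huS]
      ring
    have e2 : ∑ S ∈ ((Q.erase g).erase u).powerset,
        x ^ (if (u ∈ put (!(!c)) u S ↔ c = false) then N3 ((put (!(!c)) u S).erase u) + 2
          else N4 ((put (!(!c)) u S).erase u)) =
        ∑ S ∈ ((Q.erase g).erase u).powerset, x ^ (N4 S) := by
      refine Finset.sum_congr rfl fun S hS => ?_
      have huS : u ∉ S := fun hg =>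
        (Finset.mem_erase.mp (Finset.mem_powerset.mp hS hg)).1 rfl
      have hneg : ¬ (u ∈ put (!(!c)) u S ↔ c = false) := by
        rw [mem_put_self huS]; cases c <;> simp
      rw [if_neg hneg, put_erase huS]
    rw [e1, e2]
    rw [erase_comm'] at hs3
    have hx := h.x0
    have hr := h.r0
    have hK := h.K0
    calc x ^ 2 * ∑ S ∈ ((Q.erase g).erase u).powerset, x ^ (N3 S)
          + ∑ S ∈ ((Q.erase g).erase u).powerset, x ^ (N4 S)
        ≤ x ^ 2 * (K * (2 * ρ) ^ m) + K * β * ρ * (2 * ρ) ^ m :=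
          add_le_add (mul_le_mul_of_nonneg_left hs3 (by positivity)) hs4
      _ = (x ^ 2 + β * ρ) * (K * (2 * ρ) ^ m) := by ring
      _ ≤ (2 * β * ρ ^ 2) * (K * (2 * ρ) ^ m) :=
          mul_le_mul_of_nonneg_right h.h3 (by positivity)
      _ = K * β * ρ * (2 * ρ) ^ (m + 1) := by ring

theorem all_states {x K γ β ρ : ℝ} (h : Params x K γ β ρ) (m : ℕ) :
    PF x K ρ m ∧ PG x K γ ρ m ∧ PB x K β ρ m := by
  induction m with
  | zero => exact ⟨PF_zero h, PG_zero h, PB_zero h⟩
  | succ m ih => exact ⟨PF_succ h ih.2.1 ih.2.2, PG_succ h ih.1 ih.2.2, PB_succ h ih.1 ih.2.2⟩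

end Pool.Agent.AltPath
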